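import Pool.Agent.W2helper57.LD.Asm
import Pool.Agent.W2helper57.LD.Fin
import Pool.Agent.W2helper57.LD.MOM1
import Pool.Agent.W2helper57.LD.EQEW
import Pool.Agent.W2helper17.LD.IND
import Pool.Agent.W2helper49.LD.Sumg
import Pool.Agent.W2helper49.LD.Cond
import Pool.Agent.W2helper59.LD.Link
import Pool.Agent.W2helper59.LD.Indj
import Pool.Agent.W2helper88.LD.Slots
import Pool.Agent.W4helper48.LD.Bd
import Pool.Agent.W4helper48.LD.Evp
import Pool.Agent.W2helper51.LD.Amp
import Pool.Agent.W2helper51.LD.Ratio
import Pool.Agent.W2helper45.LD.Sep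
import Pool.Agent.W2helper45.LD.Poly
import Pool.Agent.W2helper56.LD.BLK
import Pool.Agent.W2helper43.LD.ASYM

/-!
# Planted clique of size `ε √n`: degree `O(log n)` polynomials succeed (answer to Q2)

The definitions of `EP`, `EQ`, `meanP`, `meanQ`, `varP`, `varQ`, `MMSE` are in
`Pool.Agent.N602.PCDefs` (planted and null distribution, polynomials in the edge indicators).

Idea of the proof. Take disjoint classes of `N ≈ n / (6(v+1))` vertices, `v ≈ a √(log n)`: one class
of centres and `v` classes of leaves. The statistic `H` of a root vertex `r` is the sum, over all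
choices of a centre `c` and of leaves `w_1, …, w_v`, of the sign of the pair `r c`, times the signs
of the pairs `c w_j`, times `1 + sign` for all pairs of leaves; the sign of a pair is `1` for an edge
and `-1` otherwise. The degree is `O(v²) = O(log n)`. A direct computation shows that the second
moment of `H`, divided by the square of its mean, is `1 + n^(-1/2+o(1))` when `r` is in the clique
and `n^(-1/2+o(1))` otherwise: a leaf outside the clique costs the factor
`2^(-(v-1)/2) n / (N p² n) = exp (-c √(log n))`, and all leaves outside the clique cost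
`n^(-c a)`. With six disjoint groups of classes and `h = H / E H` put
`q = ∏_{j<3} (1 - (1 - h_{j0}) (1 - h_{j1}))`; then `E (q - 1_{r ∈ S})² = o(1/n)`. The sum of the `q`
over all roots `r` separates the two distributions.

In the definition of strong separation we also require that the two means are different for all
large `n` (otherwise the zero polynomial would do, as `0 = o(0)`).

Author: helper57 (proof, assembly, first moment), with pieces by helpers 17, 43, 45, 48, 49, 51, 56,
59, 78, 88.
-/

set_option autoImplicit false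

open Filter Asymptotics Pool.Agent.N602.PC

namespace Pool.Agent.Results.MP_d47e79_lc.LogarithmicDegree

/-- Some sequence of polynomials of degree at most `D n` strongly separates the planted from the null
distribution: for all large `n` the two means are different, and the square root of the larger one of
the two variances is of smaller order than their distance. -/
def StronglySeparates (k : ℕ → ℝ) (D : ℕ → ℕ) : Prop :=
  ∃ f : ∀ n : ℕ, MvPolynomial (Edge n) ℝ, (∀ n, (f n).totalDegree ≤ D n) ∧
    (∀ᶠ n in atTop, meanP (k n) (f n) ≠ meanQ (f n)) ∧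
    (fun n => Real.sqrt (max (varP (k n) (f n)) (varQ (f n)))) =o[atTop]
      (fun n => |meanP (k n) (f n) - meanQ (f n)|)

/-- Degree `D` succeeds: strong separation, and the minimum mean square error is `o(1/n)`. -/
def Succeeds (k : ℕ → ℝ) (D : ℕ → ℕ) : Prop :=
  StronglySeparates k D ∧
    (fun n => MMSE n (k n) (D n)) =o[atTop] (fun n : ℕ => (1 : ℝ) / n)

/-- For every `B` there is a constant `C` such that degree `⌈C log n⌉` succeeds for all clique sizes
`k` with `√n exp (-B √(log n)) ≤ k ≤ n` for all large `n`. In particular (Q2, with a constant `C`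
which does not depend on `ε`) degree `⌈C log n⌉` succeeds for `k = ε √n`, for every `ε > 0`. -/
theorem result :
    (∀ B : ℝ, ∃ C : ℝ, ∀ k : ℕ → ℝ,
      (∀ᶠ n : ℕ in atTop,
        Real.sqrt n * Real.exp (-B * Real.sqrt (Real.log n)) ≤ k n ∧ k n ≤ n) →
      Succeeds k fun n => ⌈C * Real.log n⌉₊) ∧
    ∃ C : ℝ, ∀ ε : ℝ, 0 < ε →
      Succeeds (fun n => ε * Real.sqrt n) fun n => ⌈C * Real.log n⌉₊ := by
  have main : ∀ B : ℝ, ∃ C : ℝ, ∀ k : ℕ → ℝ,
      (∀ᶠ n : ℕ in atTop,
        Real.sqrt n * Real.exp (-B * Real.sqrt (Real.log n)) ≤ k n ∧ k n ≤ n) →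
      Succeeds k fun n => ⌈C * Real.log n⌉₊ := by
    intro B
    have ind : Pool.Agent.W2helper57.LD.S_IND := Pool.Agent.W2helper17.LD.main
    have eqew : Pool.Agent.W2helper57.LD.S_EQEW := Pool.Agent.W2helper49.LD.s_eqew
    have e1 : Pool.Agent.W2helper57.LD.S_EDGE1 := Pool.Agent.W2helper88.LD.edge1 ind eqew
    have e2 : Pool.Agent.W2helper57.LD.S_EDGE2 := Pool.Agent.W2helper88.LD.edge2 ind eqew
    have indj : Pool.Agent.W2helper57.LD.S_INDJ := Pool.Agent.W2helper59.LD.p_indj ind eqew
    have amp : Pool.Agent.W2helper57.LD.S_AMP := Pool.Agent.W2helper51.LD.p_amp indj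
    have m1 : Pool.Agent.W2helper57.LD.S_MOM1 := Pool.Agent.W2helper57.LD.mom1 ind e1
    have m2 : Pool.Agent.W2helper57.LD.S_MOM2 :=
      Pool.Agent.W2helper57.LD.mom2 e2 Pool.Agent.W4helper48.LD.p_BD
        Pool.Agent.W4helper48.LD.p_EVP Pool.Agent.W2helper49.LD.s_sumg
    have est : Pool.Agent.W2helper57.LD.S_EST :=
      Pool.Agent.W2helper57.LD.est Pool.Agent.W2helper49.LD.s_cond
        Pool.Agent.W2helper59.LD.p_link amp m1 m2 Pool.Agent.W2helper51.LD.p_ratio
        Pool.Agent.W2helper45.LD.s_poly Pool.Agent.W2helper56.LD.BLK.main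
    exact Pool.Agent.W2helper57.LD.key est Pool.Agent.W2helper45.LD.s_sep
      Pool.Agent.W2helper43.LD.main B
  refine ⟨main, ?_⟩
  obtain ⟨C, hC⟩ := main 1
  refine ⟨C, fun ε hε => hC _ ?_⟩
  have h1 : Tendsto (fun n : ℕ => Real.exp (-1 * Real.sqrt (Real.log n))) atTop (nhds 0) := by
    have h := Real.tendsto_exp_neg_atTop_nhds_zero.comp Pool.Agent.W2helper57.LD.tendsto_L
    refine h.congr fun n => ?_
    simp [Function.comp]
  have h2 : Tendsto (fun n : ℕ => Real.sqrt n) atTop atTop :=
    Real.tendsto_sqrt_atTop.comp tendsto_natCast_atTop_atTop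
  filter_upwards [h1.eventually (ge_mem_nhds hε), h2.eventually_ge_atTop ε] with n hn hn2
  constructor
  · rw [mul_comm]
    exact mul_le_mul_of_nonneg_right hn (Real.sqrt_nonneg _)
  · calc ε * Real.sqrt n ≤ Real.sqrt n * Real.sqrt n :=
          mul_le_mul_of_nonneg_right hn2 (Real.sqrt_nonneg _)
      _ = n := Real.mul_self_sqrt (Nat.cast_nonneg n)

end Pool.Agent.Results.MP_d47e79_lc.LogarithmicDegree
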